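import Pool.Agent.Lib.MP_6567fb_al.Defs3

/-!
# K36: groups of automorphisms of a finite 3-group acting trivially on the Frattini quotient
-/

set_option autoImplicit false

namespace Pool.Agent.Lib.MP_6567fb_al

/-- in a finite 3-group the Frattini subgroup contains all commutators and cubes -/
theorem frat3_le_frattini {R : Type} [Group R] [Finite R] (hR : IsPGroup 3 R) :
    frat3 (⊤ : Subgroup R) 1 ≤ frattini R := by
  have : Fact (Nat.Prime 3) := ⟨Nat.prime_three⟩
  have hnil : Group.IsNilpotent R := hR.isNilpotent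
  unfold frattini Order.radical
  refine le_iInf fun M => le_iInf fun hM => ?_
  have hMc : IsCoatom M := hM
  have hMn : M.Normal := Subgroup.NormalizerCondition.normal_of_coatom M Group.normalizerCondition_of_isNilpotent hMc
  -- every element outside `M` generates modulo `M`
  have key : ∀ z : R, z ∉ M → ∀ y : R, ∃ k : ℤ, y * (z ^ k)⁻¹ ∈ M := by
    intro z hz y
    have h1 : M < M ⊔ Subgroup.zpowers z := by
      refine lt_of_le_of_ne le_sup_left fun h => hz ?_
      rw [h]
      exact Subgroup.mem_sup_right (Subgroup.mem_zpowers z)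
    have h2 := hMc.2 _ h1
    have h3 : y ∈ M ⊔ Subgroup.zpowers z := by rw [h2]; trivial
    rw [← SetLike.mem_coe, Subgroup.normal_mul, Set.mem_mul] at h3
    obtain ⟨m, hm, w, hw, rfl⟩ := h3
    obtain ⟨k, rfl⟩ := Subgroup.mem_zpowers_iff.1 hw
    exact ⟨k, by rwa [mul_inv_cancel_right]⟩
  have hc : ∀ x y : R, x * y * x⁻¹ * y⁻¹ ∈ M := by
    intro x y
    by_cases hx : x ∈ M
    · have : x * (y * x⁻¹ * y⁻¹) ∈ M :=
        M.mul_mem hx (hMn.conj_mem _ (M.inv_mem hx) y)
      simpa [mul_assoc] using this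
    · obtain ⟨k, hk⟩ := key x hx y
      have h1 : x * y * x⁻¹ * y⁻¹ = (x * (y * (x ^ k)⁻¹) * x⁻¹) * (y * (x ^ k)⁻¹)⁻¹ := by
        group
      rw [h1]
      exact M.mul_mem (hMn.conj_mem _ hk x) (M.inv_mem hk)
  have hq : ∀ z : R, z ^ 3 ∈ M := by
    intro z
    by_cases hz : z ∈ M
    · exact M.pow_mem hz 3
    by_contra h3
    obtain ⟨k, hk⟩ := key (z ^ 3) h3 z
    obtain ⟨m, hm⟩ := hR z
    have h1 : z ^ (1 - 3 * k) ∈ M := by
      have : z * ((z ^ 3) ^ k)⁻¹ = z ^ (1 - 3 * k) := by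
        rw [zpow_sub, zpow_one, zpow_mul]; norm_cast
      rwa [← this]
    have h2 : z ^ ((3 : ℤ) ^ m) ∈ M := by
      have : z ^ ((3 : ℤ) ^ m) = 1 := by
        rw [← hm]; norm_cast
      rw [this]; exact M.one_mem
    have hcop : IsCoprime (1 - 3 * k) ((3 : ℤ) ^ m) := by
      apply IsCoprime.pow_right
      exact ⟨1, k, by ring⟩
    obtain ⟨a, b, hab⟩ := hcop
    apply hz
    have : z = (z ^ (1 - 3 * k)) ^ a * (z ^ ((3 : ℤ) ^ m)) ^ b := by
      rw [← zpow_mul, ← zpow_mul, ← zpow_add]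
      have : (1 - 3 * k) * a + 3 ^ m * b = 1 := by linarith
      rw [this, zpow_one]
    rw [this]
    exact M.mul_mem (M.zpow_mem h1 a) (M.zpow_mem h2 b)
  change Subgroup.closure _ ≤ M
  rw [Subgroup.closure_le]
  rintro z ⟨x, _, y, _, rfl | rfl⟩
  · exact hc x y
  · exact hq x

/-- A finite group of automorphisms of a finite 3-group which acts trivially modulo
`R ^ 3 [R, R]` is a 3-group. -/
theorem aut3 {R Λ : Type} [Group R] [Finite R] (hR : IsPGroup 3 R) [Group Λ] [Finite Λ]
    (φ : Λ →* MulAut R) (hφ : Function.Injective φ)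
    (h : ∀ (l : Λ) (x : R), x⁻¹ * φ l x ∈ frat3 (⊤ : Subgroup R) 1) : IsPGroup 3 Λ := by
  have : Fact (Nat.Prime 3) := ⟨Nat.prime_three⟩
  set Φ : Subgroup R := frat3 (⊤ : Subgroup R) 1 with hΦ
  -- invariance of `Φ`
  have hinv : ∀ (l : Λ), ∀ x ∈ Φ, φ l x ∈ Φ := by
    intro l x hx
    have := h l x
    have := Φ.mul_mem hx this
    rwa [mul_inv_cancel_left] at this
  obtain ⟨a, ha⟩ : ∃ a, Nat.card Φ = 3 ^ a := (hR.to_subgroup Φ).exists_card_eq
  by_contra hcon
  -- an element of prime order `q ≠ 3`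
  obtain ⟨q, hq, hq3, hqd⟩ : ∃ q, Nat.Prime q ∧ q ≠ 3 ∧ q ∣ Nat.card Λ := by
    by_contra hno
    push Not at hno
    apply hcon
    rw [IsPGroup.iff_card]
    refine ⟨(Nat.card Λ).factorization 3, ?_⟩
    refine Nat.eq_pow_of_factorization_eq_single ?_ ?_
    · exact Nat.card_pos.ne'
    · ext p
      by_cases hp : p = 3
      · subst hp; simp
      · rw [Finsupp.single_eq_of_ne hp]
        by_cases hp' : p.Prime
        · exact Nat.factorization_eq_zero_of_not_dvd fun hd => hno p hp' hp hd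
        · exact Nat.factorization_eq_zero_of_not_prime _ hp'
  have : Fact q.Prime := ⟨hq⟩
  obtain ⟨σ, hσ⟩ := exists_prime_orderOf_dvd_card' q hqd
  -- fixed points of `σ`
  let F : Subgroup R :=
    { carrier := {x | φ σ x = x}
      one_mem' := map_one _
      mul_mem' := fun {x y} hx hy => by
        change φ σ (x * y) = x * y
        rw [map_mul, hx, hy]
      inv_mem' := fun {x} hx => by
        change φ σ x⁻¹ = x⁻¹
        rw [map_inv, hx] }
  have hF : F ⊔ Φ = ⊤ := by
    rw [eq_top_iff]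
    intro x _
    -- the coset `x Φ`
    let S : Set R := {y | x⁻¹ * y ∈ Φ}
    have hcard : Nat.card S = 3 ^ a := by
      rw [← ha]
      refine Nat.card_congr ⟨fun y => ⟨x⁻¹ * y.1, y.2⟩, fun z => ⟨x * z.1, ?_⟩, ?_, ?_⟩
      · change x⁻¹ * (x * z.1) ∈ Φ
        rw [inv_mul_cancel_left]; exact z.2
      · intro y; simp
      · intro z; simp
    have hst : ∀ (l : Λ), ∀ y ∈ S, φ l y ∈ S := by
      intro l y hy
      have h1 := h l y
      have h2 := Φ.mul_mem hy h1
      change x⁻¹ * φ l y ∈ Φ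
      have : x⁻¹ * y * (y⁻¹ * φ l y) = x⁻¹ * φ l y := by group
      rwa [this] at h2
    let _ : MulAction (Subgroup.zpowers σ) S :=
      { smul := fun l y => ⟨φ (l : Λ) y.1, hst _ _ y.2⟩
        one_smul := fun y => by
          apply Subtype.ext
          change φ ((1 : Subgroup.zpowers σ) : Λ) y.1 = y.1
          rw [Subgroup.coe_one, map_one]; rfl
        mul_smul := fun l m y => by
          apply Subtype.ext
          change φ ((l * m : Subgroup.zpowers σ) : Λ) y.1 = φ (l : Λ) (φ (m : Λ) y.1)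
          rw [Subgroup.coe_mul, map_mul]; rfl }
    have hqg : IsPGroup q (Subgroup.zpowers σ) := by
      rw [IsPGroup.iff_card]
      exact ⟨1, by rw [Nat.card_zpowers, hσ, pow_one]⟩
    have hnd : ¬ q ∣ Nat.card S := by
      rw [hcard]
      intro hd
      exact hq3 ((Nat.prime_dvd_prime_iff_eq hq Nat.prime_three).1 (hq.dvd_of_dvd_pow hd))
    obtain ⟨y, hy⟩ := hqg.nonempty_fixed_point_of_prime_not_dvd_card S hnd
    have hy1 : φ σ y.1 = y.1 := by
      have := hy ⟨σ, Subgroup.mem_zpowers σ⟩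
      exact congrArg Subtype.val this
    have hy2 : x⁻¹ * y.1 ∈ Φ := y.2
    have : x = y.1 * (x⁻¹ * y.1)⁻¹ := by group
    rw [this]
    exact Subgroup.mul_mem_sup hy1 (Φ.inv_mem hy2)
  have hF2 : F = ⊤ := by
    apply frattini_nongenerating
    rw [eq_top_iff, ← hF]
    exact sup_le_sup_left (frat3_le_frattini hR) F
  have hσ1 : σ = 1 := by
    apply hφ
    rw [map_one]
    refine MulEquiv.ext fun x => ?_
    have : x ∈ F := by rw [hF2]; trivial
    exact this
  rw [hσ1, orderOf_one] at hσ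
  exact hq.one_lt.ne hσ

end Pool.Agent.Lib.MP_6567fb_al
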