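import Mathlib

/-!
# K37: a Lefschetz type inequality for automorphisms of order three of a finite graph

`X0` = vertices, `X1` = oriented edges, `inv` reverses them, `src` is the first vertex.
If an automorphism `s` of order dividing 3 acts trivially on `H^1(Γ; ℤ/3)` then it acts trivially on
`H^1(Γ; ℤ)`, and it moves at most as many (unoriented) edges as vertices.
-/

set_option autoImplicit false

namespace Pool.Agent.Lib.MP_6567fb_al.Lef3

variable {X0 X1 : Type}

/-- walks: `w` is the list of its oriented edges -/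
inductive Wk (src : X1 → X0) (inv : X1 → X1) : X0 → X0 → List X1 → Prop
  | nil (x : X0) : Wk src inv x x []
  | cons (e : X1) {y : X0} {w : List X1} (h : Wk src inv (src (inv e)) y w) :
      Wk src inv (src e) y (e :: w)

variable {src : X1 → X0} {inv : X1 → X1}

theorem Wk.append {x y z : X0} {w w' : List X1} (h : Wk src inv x y w) (h' : Wk src inv y z w') :
    Wk src inv x z (w ++ w') := by
  induction h with
  | nil x => exact h'
  | cons e _ ih => exact Wk.cons e (ih h')

theorem Wk.sum_d {x y : X0} {w : List X1} (h : Wk src inv x y w) (u : X0 → ℤ) :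
    (w.map fun e => u (src (inv e)) - u (src e)).sum = u y - u x := by
  induction h with
  | nil x => simp
  | cons e _ ih => rw [List.map_cons, List.sum_cons, ih]; ring

theorem Wk.rev (hinv : ∀ e, inv (inv e) = e) {x y : X0} {w : List X1} (h : Wk src inv x y w) :
    ∃ w', Wk src inv y x w' ∧ ∀ c : X1 → ℤ, (∀ e, c (inv e) = - c e) →
      (w'.map c).sum = - (w.map c).sum := by
  induction h with
  | nil x => exact ⟨[], Wk.nil x, by simp⟩
  | cons e _ ih =>
    obtain ⟨w', h1, h2⟩ := ih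
    have h3 : Wk src inv (src (inv e)) (src e) [inv e] := by
      apply Wk.cons
      rw [hinv]
      exact Wk.nil _
    refine ⟨w' ++ [inv e], h1.append h3, fun c hc => ?_⟩
    rw [List.map_append, List.sum_append, h2 c hc, List.map_cons, List.sum_cons]
    simp [hc]

theorem Wk.exists_of (x y : X0) (h : Relation.ReflTransGen (fun a b => ∃ e, src e = a ∧ src (inv e) = b) x y) :
    ∃ w, Wk src inv x y w := by
  induction h using Relation.ReflTransGen.head_induction_on with
  | refl => exact ⟨[], Wk.nil _⟩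
  | head h _ ih =>
    obtain ⟨e, rfl, rfl⟩ := h
    obtain ⟨w, hw⟩ := ih
    exact ⟨e :: w, Wk.cons e hw⟩

/-- antisymmetric -/
def Anti (inv : X1 → X1) (c : X1 → ℤ) : Prop := ∀ e, c (inv e) = - c e

/-- coboundary -/
def dd (src : X1 → X0) (inv : X1 → X1) (u : X0 → ℤ) : X1 → ℤ := fun e => u (src (inv e)) - u (src e)

theorem anti_dd (hinv : ∀ e, inv (inv e) = e) (u : X0 → ℤ) : Anti inv (dd src inv u) := by
  intro e
  unfold dd
  rw [hinv]; ring

/-- integration -/
theorem integrate (hinv : ∀ e, inv (inv e) = e)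
    (hconn : ∀ x y : X0, ∃ w, Wk src inv x y w) (c : X1 → ℤ) (hc : Anti inv c) (m : ℤ)
    (h : ∀ (x : X0) (w : List X1), Wk src inv x x w → m ∣ (w.map c).sum) :
    ∃ (u : X0 → ℤ) (c' : X1 → ℤ), Anti inv c' ∧ ∀ e, c e = dd src inv u e + m * c' e := by
  rcases isEmpty_or_nonempty X0 with hE | ⟨⟨x0⟩⟩
  · exact ⟨fun _ => 0, fun _ => 0, fun e => (hE.false (src e)).elim, fun e => (hE.false (src e)).elim⟩
  choose W hW using fun x => hconn x0 x
  have key : ∀ e, ∃ q, c e - dd src inv (fun x => ((W x).map c).sum) e = m * q := by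
    intro e
    obtain ⟨w', h1, h2⟩ := (hW (src (inv e))).rev hinv
    have h3 : Wk src inv (src e) (src (inv e)) [e] := Wk.cons e (Wk.nil _)
    obtain ⟨q, hq⟩ := h _ _ (((hW (src e)).append h3).append h1)
    refine ⟨q, ?_⟩
    rw [← hq, List.map_append, List.sum_append, List.map_append, List.sum_append, h2 c hc]
    unfold dd
    simp
    ring
  by_cases hm : m = 0
  · refine ⟨fun x => ((W x).map c).sum, fun _ => 0, fun e => by simp, fun e => ?_⟩
    obtain ⟨q, hq⟩ := key e
    rw [hm, zero_mul] at hq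
    rw [mul_zero, add_zero]
    linarith
  · choose q hq using key
    refine ⟨fun x => ((W x).map c).sum, q, fun e => ?_, fun e => ?_⟩
    · have h1 := hq e
      have h2 := hq (inv e)
      have h3 := anti_dd (src := src) hinv (fun x => ((W x).map c).sum) e
      have h4 := hc e
      have : m * q (inv e) = m * (- q e) := by
        rw [← h2, h4, h3]; linarith
      exact mul_left_cancel₀ hm this
    · have h1 := hq e
      linarith

theorem sum_dd {x y : X0} {w : List X1} (h : Wk src inv x y w) (u : X0 → ℤ) :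
    (w.map (dd src inv u)).sum = u y - u x := h.sum_d u

/-- `σ - 1` acts trivially on `H^1(Γ; ℤ)` -/
theorem main_div (s0 : X0 → X0) (s1 : X1 → X1) (h1 : ∀ e, s1 (s1 (s1 e)) = e)
    (hinv : ∀ e, inv (inv e) = e)
    (hs : ∀ e, src (s1 e) = s0 (src e)) (hi : ∀ e, inv (s1 e) = s1 (inv e))
    (hconn : ∀ x y : X0, ∃ w, Wk src inv x y w)
    (h : ∀ c : X1 → ZMod 3, (∀ e, c (inv e) = - c e) →
      ∃ u : X0 → ZMod 3, ∀ e, c (s1 e) - c e = u (src (inv e)) - u (src e)) (a : ℕ) :
    ∀ c : X1 → ℤ, Anti inv c → ∀ (x : X0) (w : List X1), Wk src inv x x w →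
      (3 : ℤ) ^ (a + 1) ∣ (w.map fun e => c (s1 e) - c e).sum := by
  have hτ : ∀ c : X1 → ℤ, Anti inv c → Anti inv (fun e => c (s1 e) - c e) := by
    intro c hc e
    change c (s1 (inv e)) - c (inv e) = -(c (s1 e) - c e)
    rw [← hi, hc, hc]; ring
  have hdd : ∀ (u : X0 → ℤ) e, dd src inv u (s1 e) = dd src inv (fun x => u (s0 x)) e := by
    intro u e
    unfold dd
    rw [hi, hs, hs]
  induction a with
  | zero =>
    intro c hc x w hw
    obtain ⟨u, hu⟩ := h (fun e => (c e : ZMod 3)) (fun e => by rw [hc]; push_cast; rfl)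
    -- lift `u`
    have hlift : ∀ x, ((u x).val : ℤ) = u x → True := fun _ _ => trivial
    have h2 : ((w.map fun e => c (s1 e) - c e).sum : ZMod 3)
        = (w.map fun e => ((c (s1 e) : ℤ) : ZMod 3) - (c e : ZMod 3)).sum := by
      rw [Int.cast_list_sum, List.map_map]
      congr 1
      apply List.map_congr_left
      intro e _
      simp
    have h3 : ∀ {x y : X0} {w : List X1}, Wk src inv x y w →
        (w.map fun e => ((c (s1 e) : ℤ) : ZMod 3) - (c e : ZMod 3)).sum = u y - u x := by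
      intro x y w hw
      induction hw with
      | nil x => simp
      | cons e _ ih => rw [List.map_cons, List.sum_cons, ih, hu]; ring
    rw [zero_add, pow_one]
    have h4 : (((w.map fun e => c (s1 e) - c e).sum : ℤ) : ZMod 3) = 0 := by
      rw [h2, h3 hw, sub_self]
    have := (ZMod.intCast_zmod_eq_zero_iff_dvd _ 3).1 h4
    exact_mod_cast this
  | succ a ih =>
    intro c hc x w hw
    -- `τ c = d u + 3 ^ (a+1) c1`
    obtain ⟨u, c1, hc1, e1⟩ := integrate hinv hconn _ (hτ c hc) _ (ih c hc)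
    obtain ⟨u1, c2, hc2, e2⟩ := integrate hinv hconn _ (hτ c1 hc1) _ (ih c1 hc1)
    obtain ⟨u2, c3, hc3, e3⟩ := integrate hinv hconn _ (hτ c2 hc2) _ (ih c2 hc2)
    set q : ℤ := 3 ^ (a + 1) with hq
    -- `3 τ c = - 3 τ² c - τ³ c`
    have e4 : ∀ e, 3 * (c (s1 e) - c e)
        = dd src inv (fun x => -3 * (u (s0 x) - u x) - 3 * (q * u1 x)
            - (u (s0 (s0 x)) - 2 * u (s0 x) + u x) - q * (u1 (s0 x) - u1 x) - q * q * u2 x) e
          - 3 * (q * q * c2 e) - q * q * q * c3 e := by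
      intro e
      have a1 := e1 e
      have a2 := e1 (s1 e)
      have a3 := e1 (s1 (s1 e))
      have b1 := e2 e
      have b2 := e2 (s1 e)
      have d1 := e3 e
      rw [h1] at a3
      rw [hdd] at a2 b2
      rw [hdd, hdd] at a3
      unfold dd at *
      linear_combination (-3) * (a2 - a1 + q * b1) - (a3 - 2 * a2 + a1 + q * (b2 - b1) + q * q * d1)
    have e5 : 3 * (w.map fun e => c (s1 e) - c e).sum
        = - 3 * (q * q * (w.map c2).sum) - q * q * q * (w.map c3).sum := by
      have : ∀ l : List X1, 3 * (l.map fun e => c (s1 e) - c e).sum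
          = (l.map (dd src inv (fun x => -3 * (u (s0 x) - u x) - 3 * (q * u1 x)
            - (u (s0 (s0 x)) - 2 * u (s0 x) + u x) - q * (u1 (s0 x) - u1 x) - q * q * u2 x))).sum
            - 3 * (q * q * (l.map c2).sum) - q * q * q * (l.map c3).sum := by
        intro l
        induction l with
        | nil => simp
        | cons e l ih =>
          simp only [List.map_cons, List.sum_cons]
          have := e4 e
          linear_combination this + ih
      rw [this, sum_dd hw]
      ring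
    have e6 : (w.map fun e => c (s1 e) - c e).sum
        = - (q * q * (w.map c2).sum) - 3 ^ a * q * q * (w.map c3).sum := by
      have : (3 : ℤ) ≠ 0 := by norm_num
      apply mul_left_cancel₀ this
      rw [e5]
      have : q = 3 * 3 ^ a := by rw [hq]; ring
      rw [this]; ring
    rw [e6]
    have h5 : (3 : ℤ) ^ (a + 1 + 1) ∣ q * q := by
      rw [hq, ← pow_add]
      exact pow_dvd_pow _ (by omega)
    refine Dvd.dvd.sub ((h5.mul_right _).neg_right) ?_
    have : 3 ^ a * q * q * (w.map c3).sum = q * q * (3 ^ a * (w.map c3).sum) := by ring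
    rw [this]
    exact h5.mul_right _

/-- integral form: `c (s e) - c e` is a coboundary -/
theorem main_int (s0 : X0 → X0) (s1 : X1 → X1) (h1 : ∀ e, s1 (s1 (s1 e)) = e)
    (hinv : ∀ e, inv (inv e) = e)
    (hs : ∀ e, src (s1 e) = s0 (src e)) (hi : ∀ e, inv (s1 e) = s1 (inv e))
    (hconn : ∀ x y : X0, ∃ w, Wk src inv x y w)
    (h : ∀ c : X1 → ZMod 3, (∀ e, c (inv e) = - c e) →
      ∃ u : X0 → ZMod 3, ∀ e, c (s1 e) - c e = u (src (inv e)) - u (src e))
    (c : X1 → ℤ) (hc : Anti inv c) : ∃ u : X0 → ℤ, ∀ e, c (s1 e) - c e = dd src inv u e := by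
  have hτ : Anti inv (fun e => c (s1 e) - c e) := by
    intro e
    change c (s1 (inv e)) - c (inv e) = -(c (s1 e) - c e)
    rw [← hi, hc, hc]; ring
  obtain ⟨u, c', _, hu⟩ := integrate hinv hconn _ hτ 0 (by
    intro x w hw
    rw [zero_dvd_iff]
    by_contra hne
    set S := (w.map fun e => c (s1 e) - c e).sum with hS
    have hd := main_div s0 s1 h1 hinv hs hi hconn h S.natAbs c hc x w hw
    rw [← hS] at hd
    have h2 := Int.natAbs_le_of_dvd_ne_zero hd hne
    have h3 : ((3 : ℤ) ^ (S.natAbs + 1)).natAbs = 3 ^ (S.natAbs + 1) := by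
      rw [Int.natAbs_pow]; rfl
    rw [h3] at h2
    have h4 : S.natAbs + 1 < 3 ^ (S.natAbs + 1) := Nat.lt_pow_self (by norm_num)
    omega)
  exact ⟨u, fun e => by have := hu e; rw [zero_mul, add_zero] at this; exact this⟩

/-- representatives of the orbits of length three -/
def M0 {X : Type} (f : X → ℕ) (s : X → X) : Set X := {x | f x < f (s x) ∧ f x < f (s (s x))}

/-- `c ↦ c ∘ s - c` -/
def tau {X : Type} (s : X → X) : (X → ℤ) →ₗ[ℤ] (X → ℤ) where
  toFun c := fun x => c (s x) - c x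
  map_add' := fun c c' => by funext x; simp only [Pi.add_apply]; ring
  map_smul' := fun m c => by funext x; simp only [Pi.smul_apply, smul_eq_mul, RingHom.id_apply]; ring

theorem cover0 {X : Type} (f : X → ℕ) (hf : Function.Injective f) (s : X → X)
    (hs : ∀ x, s (s (s x)) = x) (x : X) (hx : s x ≠ x) :
    x ∈ M0 f s ∨ s x ∈ M0 f s ∨ s (s x) ∈ M0 f s := by
  have h1 : s (s x) ≠ x := fun h => hx (by
    have := hs x
    rw [h] at this
    exact this)
  have h2 : s (s x) ≠ s x := fun h => hx (by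
    have := congrArg s (congrArg s h)
    rw [hs, hs] at this
    exact this)
  have e1 := hf.ne hx
  have e2 := hf.ne h1
  have e3 := hf.ne h2
  unfold M0
  simp only [Set.mem_ofPred_eq, hs]
  omega

theorem fr_le {X : Type} [Finite X] (f : X → ℕ) (hf : Function.Injective f) (s : X → X)
    (hs : ∀ x, s (s (s x)) = x) :
    Module.finrank ℤ (LinearMap.range (tau s)) ≤ 2 * Nat.card (M0 f s) := by
  classical
  have : Fintype (M0 f s) := Fintype.ofFinite _
  have : Fintype X := Fintype.ofFinite _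
  let R : LinearMap.range (tau s) →ₗ[ℤ] ((M0 f s → ℤ) × (M0 f s → ℤ)) :=
    { toFun := fun v => (fun x => v.1 x.1, fun x => v.1 (s x.1))
      map_add' := fun v w => rfl
      map_smul' := fun m v => rfl }
  have hR : Function.Injective R := by
    rw [← LinearMap.ker_eq_bot, LinearMap.ker_eq_bot']
    rintro ⟨v, ⟨c, rfl⟩⟩ hv
    have h1 : ∀ x ∈ M0 f s, tau s c x = 0 := fun x hx => congrFun (congrArg Prod.fst hv) ⟨x, hx⟩
    have h2 : ∀ x ∈ M0 f s, tau s c (s x) = 0 := fun x hx => congrFun (congrArg Prod.snd hv) ⟨x, hx⟩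
    have h3 : ∀ x ∈ M0 f s, tau s c (s (s x)) = 0 := by
      intro x hx
      have a1 := h1 x hx
      have a2 := h2 x hx
      change c (s x) - c x = 0 at a1
      change c (s (s x)) - c (s x) = 0 at a2
      change c (s (s (s x))) - c (s (s x)) = 0
      rw [hs]
      linarith
    apply Subtype.ext
    funext x
    change tau s c x = 0
    by_cases hx : s x = x
    · change c (s x) - c x = 0
      rw [hx, sub_self]
    rcases cover0 f hf s hs x hx with h | h | h
    · exact h1 _ h
    · have := h3 _ h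
      rwa [hs] at this
    · have := h2 _ h
      rwa [hs] at this
  have h := LinearMap.finrank_le_finrank_of_injective hR
  rw [Module.finrank_prod, Module.finrank_fintype_fun_eq_card] at h
  rw [Nat.card_eq_fintype_card]
  omega

/-- representatives of the orbits of length six -/
def M1 (inv : X1 → X1) (f : X1 → ℕ) (s : X1 → X1) : Set X1 :=
  {x | s x ≠ x ∧ f x ≤ f (s x) ∧ f x ≤ f (s (s x)) ∧ f x ≤ f (inv x) ∧ f x ≤ f (inv (s x)) ∧
    f x ≤ f (inv (s (s x)))}

theorem cover1 (f : X1 → ℕ) (s : X1 → X1)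
    (hs : ∀ x, s (s (s x)) = x) (hinv : ∀ e, inv (inv e) = e)
    (hi : ∀ e, inv (s e) = s (inv e)) (x : X1) (hx : s x ≠ x) :
    x ∈ M1 inv f s ∨ s x ∈ M1 inv f s ∨ s (s x) ∈ M1 inv f s ∨
      inv x ∈ M1 inv f s ∨ inv (s x) ∈ M1 inv f s ∨ inv (s (s x)) ∈ M1 inv f s := by
  classical
  have h1 : s (s x) ≠ x := fun h => hx (by
    have := hs x
    rw [h] at this
    exact this)
  have h2 : s (s x) ≠ s x := fun h => hx (by
    have := congrArg s (congrArg s h)
    rw [hs, hs] at this
    exact this)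
  have d1 : s (inv x) ≠ inv x := fun h => hx (by
    rw [← hi] at h; rw [← hinv (s x), h, hinv])
  have d2 : s (inv (s x)) ≠ inv (s x) := fun h => h2 (by
    rw [← hi] at h; rw [← hinv (s (s x)), h, hinv])
  have d3 : s (inv (s (s x))) ≠ inv (s (s x)) := fun h => h1 (by
    rw [← hi, hs] at h; rw [← hinv (s (s x)), ← h, hinv])
  obtain ⟨m, hm, hmin⟩ := Finset.exists_min_image
    ({x, s x, s (s x), inv x, inv (s x), inv (s (s x))} : Finset X1) f ⟨x, by simp⟩
  have i1 := hmin x (by simp)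
  have i2 := hmin (s x) (by simp)
  have i3 := hmin (s (s x)) (by simp)
  have i4 := hmin (inv x) (by simp)
  have i5 := hmin (inv (s x)) (by simp)
  have i6 := hmin (inv (s (s x))) (by simp)
  simp only [Finset.mem_insert, Finset.mem_singleton] at hm
  rcases hm with rfl | rfl | rfl | rfl | rfl | rfl
  · left
    exact ⟨hx, i2, i3, i4, i5, i6⟩
  · right; left
    refine ⟨h2, ?_, ?_, ?_, ?_, ?_⟩ <;> (try simp only [hs]) <;> assumption
  · right; right; left
    refine ⟨by rw [hs]; exact h1.symm, ?_, ?_, ?_, ?_, ?_⟩ <;> (try simp only [hs]) <;> assumption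
  · right; right; right; left
    refine ⟨d1, ?_, ?_, ?_, ?_, ?_⟩ <;> (try simp only [← hi, hinv]) <;> assumption
  · right; right; right; right; left
    refine ⟨d2, ?_, ?_, ?_, ?_, ?_⟩ <;> (try simp only [← hi, hinv, hs]) <;> assumption
  · right; right; right; right; right
    refine ⟨d3, ?_, ?_, ?_, ?_, ?_⟩ <;> (try simp only [← hi, hinv, hs]) <;> assumption

theorem uniq1 (f : X1 → ℕ) (hf : Function.Injective f) (s : X1 → X1)
    (hs : ∀ x, s (s (s x)) = x) (hinv : ∀ e, inv (inv e) = e) (hne : ∀ e, inv e ≠ e)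
    (hi : ∀ e, inv (s e) = s (inv e)) {x : X1} (hx : x ∈ M1 inv f s) :
    s x ∉ M1 inv f s ∧ s (s x) ∉ M1 inv f s ∧ inv x ∉ M1 inv f s ∧ inv (s x) ∉ M1 inv f s ∧
      inv (s (s x)) ∉ M1 inv f s := by
  obtain ⟨h0, a1, a2, a3, a4, a5⟩ := hx
  refine ⟨fun h => ?_, fun h => ?_, fun h => ?_, fun h => ?_, fun h => ?_⟩
  · obtain ⟨_, b1, b2, b3, b4, b5⟩ := h
    rw [hs] at b2
    exact h0 (hf (le_antisymm b2 a1))
  · obtain ⟨_, b1, b2, b3, b4, b5⟩ := h
    rw [hs] at b1
    have := hf (le_antisymm b1 a2)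
    have h3 := hs x
    rw [this] at h3
    exact h0 h3
  · obtain ⟨_, b1, b2, b3, b4, b5⟩ := h
    rw [hinv] at b3
    exact hne _ (hf (le_antisymm b3 a3))
  · obtain ⟨_, b1, b2, b3, b4, b5⟩ := h
    simp only [← hi, hinv, hs] at b5
    have h1 := hf (le_antisymm b5 a4)
    -- inv (s x) = x
    have h2 : s x = inv x := by rw [← hinv (s x), h1]
    have h3 : s (s x) = x := by rw [h2, ← hi, h1]
    have h4 := hs x
    rw [h3] at h4
    exact h0 h4
  · obtain ⟨_, b1, b2, b3, b4, b5⟩ := h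
    simp only [← hi, hinv, hs] at b4
    have h1 := hf (le_antisymm b4 a5)
    -- inv (s (s x)) = x
    have h2 : s (s x) = inv x := by rw [← hinv (s (s x)), h1]
    have h3 : x = s (inv x) := by rw [← h2, hs]
    have h4 : s x = inv x := by
      rw [← hi] at h3
      rw [← hinv (s x), ← h3]
    rw [h4] at h2
    rw [← hi, h4, hinv] at h2
    exact hne _ h2.symm

open Classical in
/-- values on an orbit of length three -/
noncomputable def c0 (A : Set X1) (s : X1 → X1) (a b : A → ℤ) (y : X1) : ℤ :=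
  if h : s (s y) ∈ A then a ⟨_, h⟩ else if h : s y ∈ A then a ⟨_, h⟩ + b ⟨_, h⟩ else 0

theorem c0_add (A : Set X1) (s : X1 → X1) (a b a' b' : A → ℤ) (y : X1) :
    c0 A s (a + a') (b + b') y = c0 A s a b y + c0 A s a' b' y := by
  unfold c0
  (split_ifs <;> simp) ; ring

theorem c0_smul (A : Set X1) (s : X1 → X1) (m : ℤ) (a b : A → ℤ) (y : X1) :
    c0 A s (m • a) (m • b) y = m * c0 A s a b y := by
  unfold c0
  (split_ifs <;> simp) ; ring

/-- the antisymmetric function with given differences on the representatives -/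
noncomputable def EE (inv : X1 → X1) (A : Set X1) (s : X1 → X1) :
    ((A → ℤ) × (A → ℤ)) →ₗ[ℤ] (X1 → ℤ) where
  toFun p := fun y => c0 A s p.1 p.2 y - c0 A s p.1 p.2 (inv y)
  map_add' := fun p q => by
    funext y
    change c0 A s (p.1 + q.1) (p.2 + q.2) y - c0 A s (p.1 + q.1) (p.2 + q.2) (inv y) = _
    rw [c0_add, c0_add]
    simp only [Pi.add_apply]; ring
  map_smul' := fun m p => by
    funext y
    change c0 A s (m • p.1) (m • p.2) y - c0 A s (m • p.1) (m • p.2) (inv y) = _
    rw [c0_smul, c0_smul]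
    simp only [Pi.smul_apply, smul_eq_mul, RingHom.id_apply]; ring

theorem EE_anti (hinv : ∀ e, inv (inv e) = e) (A : Set X1) (s : X1 → X1) (p : (A → ℤ) × (A → ℤ)) :
    Anti inv (EE inv A s p) := by
  intro e
  change c0 A s p.1 p.2 (inv e) - c0 A s p.1 p.2 (inv (inv e))
    = -(c0 A s p.1 p.2 e - c0 A s p.1 p.2 (inv e))
  rw [hinv]; ring

theorem EE_val (f : X1 → ℕ) (hf : Function.Injective f) (s : X1 → X1)
    (hs : ∀ x, s (s (s x)) = x) (hinv : ∀ e, inv (inv e) = e) (hne : ∀ e, inv e ≠ e)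
    (hi : ∀ e, inv (s e) = s (inv e)) (p : (M1 inv f s → ℤ) × (M1 inv f s → ℤ))
    (x : M1 inv f s) :
    EE inv (M1 inv f s) s p (s x.1) - EE inv (M1 inv f s) s p x.1 = p.1 x ∧
    EE inv (M1 inv f s) s p (s (s x.1)) - EE inv (M1 inv f s) s p (s x.1) = p.2 x := by
  obtain ⟨x, hx⟩ := x
  obtain ⟨u1, u2, u3, u4, u5⟩ := uniq1 f hf s hs hinv hne hi hx
  have v1 : EE inv (M1 inv f s) s p x = 0 := by
    change c0 _ s p.1 p.2 x - c0 _ s p.1 p.2 (inv x) = 0
    unfold c0
    have w1 : s (s (inv x)) ∉ M1 inv f s := by rw [← hi, ← hi]; exact u5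
    have w2 : s (inv x) ∉ M1 inv f s := by rw [← hi]; exact u4
    rw [dif_neg u2, dif_neg u1, dif_neg w1, dif_neg w2, sub_zero]
  have v2 : EE inv (M1 inv f s) s p (s x) = p.1 ⟨x, hx⟩ := by
    change c0 _ s p.1 p.2 (s x) - c0 _ s p.1 p.2 (inv (s x)) = _
    unfold c0
    have w0 : s (s (s x)) ∈ M1 inv f s := by rw [hs]; exact hx
    have w1 : s (s (inv (s x))) ∉ M1 inv f s := by rw [← hi, ← hi, hs]; exact u3
    have w2 : s (inv (s x)) ∉ M1 inv f s := by rw [← hi]; exact u5
    rw [dif_pos w0, dif_neg w1, dif_neg w2, sub_zero]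
    have : (⟨s (s (s x)), w0⟩ : M1 inv f s) = ⟨x, hx⟩ := Subtype.ext (hs x)
    rw [this]
  have v3 : EE inv (M1 inv f s) s p (s (s x)) = p.1 ⟨x, hx⟩ + p.2 ⟨x, hx⟩ := by
    change c0 _ s p.1 p.2 (s (s x)) - c0 _ s p.1 p.2 (inv (s (s x))) = _
    unfold c0
    have w00 : s (s (s (s x))) ∉ M1 inv f s := by rw [hs]; exact u1
    have w0 : s (s (s x)) ∈ M1 inv f s := by rw [hs]; exact hx
    have w1 : s (s (inv (s (s x)))) ∉ M1 inv f s := by rw [← hi, ← hi, hs]; exact u4
    have w2 : s (inv (s (s x))) ∉ M1 inv f s := by rw [← hi, hs]; exact u3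
    rw [dif_neg w00, dif_pos w0, dif_neg w1, dif_neg w2, sub_zero]
    have : (⟨s (s (s x)), w0⟩ : M1 inv f s) = ⟨x, hx⟩ := Subtype.ext (hs x)
    rw [this]
  change EE inv (M1 inv f s) s p (s x) - EE inv (M1 inv f s) s p x = _ ∧
    EE inv (M1 inv f s) s p (s (s x)) - EE inv (M1 inv f s) s p (s x) = _
  rw [v1, v2, v3]
  constructor <;> ring

/-- the coboundary as a linear map -/
def DD (src : X1 → X0) (inv : X1 → X1) : (X0 → ℤ) →ₗ[ℤ] (X1 → ℤ) where
  toFun u := dd src inv u
  map_add' := fun u v => by funext e; simp only [dd, Pi.add_apply]; ring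
  map_smul' := fun m u => by
    funext e; simp only [dd, Pi.smul_apply, smul_eq_mul, RingHom.id_apply]; ring

theorem card_le [Finite X0] [Finite X1] (f0 : X0 → ℕ) (hf0 : Function.Injective f0)
    (f1 : X1 → ℕ) (hf1 : Function.Injective f1)
    (s0 : X0 → X0) (s1 : X1 → X1) (h0 : ∀ x, s0 (s0 (s0 x)) = x) (h1 : ∀ e, s1 (s1 (s1 e)) = e)
    (hinv : ∀ e, inv (inv e) = e) (hne : ∀ e, inv e ≠ e)
    (hs : ∀ e, src (s1 e) = s0 (src e)) (hi : ∀ e, inv (s1 e) = s1 (inv e))
    (hconn : ∀ x y : X0, ∃ w, Wk src inv x y w)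
    (h : ∀ c : X1 → ZMod 3, (∀ e, c (inv e) = - c e) →
      ∃ u : X0 → ZMod 3, ∀ e, c (s1 e) - c e = u (src (inv e)) - u (src e)) :
    Nat.card (M1 inv f1 s1) ≤ Nat.card (M0 f0 s0) := by
  classical
  have : Fintype (M1 inv f1 s1) := Fintype.ofFinite _
  have : Fintype X0 := Fintype.ofFinite _
  have : Fintype X1 := Fintype.ofFinite _
  have key : ∀ p : (M1 inv f1 s1 → ℤ) × (M1 inv f1 s1 → ℤ),
      ((3 : ℤ) • (tau s1 (EE inv (M1 inv f1 s1) s1 p))) ∈
        (LinearMap.range (tau s0)).map (DD src inv) := by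
    intro p
    set c := EE inv (M1 inv f1 s1) s1 p with hc
    have hca : Anti inv c := EE_anti hinv _ _ p
    obtain ⟨u, hu⟩ := main_int s0 s1 h1 hinv hs hi hconn h (fun e => c (s1 e) + 2 * c e) (by
      intro e
      change c (s1 (inv e)) + 2 * c (inv e) = -(c (s1 e) + 2 * c e)
      rw [← hi, hca, hca]; ring)
    refine ⟨- tau s0 u, Submodule.neg_mem _ ⟨u, rfl⟩, ?_⟩
    funext e
    have a1 := hu e
    have a2 := hu (s1 e)
    rw [h1] at a2
    change dd src inv (fun x => -(u (s0 x) - u x)) e = 3 * (c (s1 e) - c e)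
    unfold dd at *
    rw [hi, hs, hs] at a2
    linear_combination a2 - a1
  let Q : ((M1 inv f1 s1 → ℤ) × (M1 inv f1 s1 → ℤ)) →ₗ[ℤ]
      (LinearMap.range (tau s0)).map (DD src inv) :=
    LinearMap.codRestrict _ ((3 : ℤ) • ((tau s1).comp (EE inv (M1 inv f1 s1) s1))) key
  have hQ : Function.Injective Q := by
    rw [← LinearMap.ker_eq_bot, LinearMap.ker_eq_bot']
    intro p hp
    have e1 : ∀ e, 3 * (EE inv (M1 inv f1 s1) s1 p (s1 e) - EE inv (M1 inv f1 s1) s1 p e) = 0 :=
      fun e => congrFun (congrArg Subtype.val hp) e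
    apply Prod.ext
    · funext x
      have a := (EE_val f1 hf1 s1 h1 hinv hne hi p x).1
      have b := e1 x.1
      rw [a] at b
      change p.1 x = 0
      omega
    · funext x
      have a := (EE_val f1 hf1 s1 h1 hinv hne hi p x).2
      have b := e1 (s1 x.1)
      rw [a] at b
      change p.2 x = 0
      omega
  have e1 := LinearMap.finrank_le_finrank_of_injective hQ
  have e2 := Submodule.finrank_map_le (DD src inv) (LinearMap.range (tau s0))
  have e3 := fr_le f0 hf0 s0 h0
  rw [Module.finrank_prod, Module.finrank_fintype_fun_eq_card] at e1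
  rw [Nat.card_eq_fintype_card (α := M1 inv f1 s1)]
  omega

/-- K37. `s` acts trivially on `H^1(Γ; ℤ/3)`, `s³ = 1`: the number of moved oriented edges is at most twice
the number of moved vertices. -/
theorem lefschetz3 [Finite X0] [Finite X1] (s0 : X0 → X0) (s1 : X1 → X1)
    (h0 : ∀ x, s0 (s0 (s0 x)) = x) (h1 : ∀ e, s1 (s1 (s1 e)) = e)
    (hinv : ∀ e, inv (inv e) = e) (hne : ∀ e, inv e ≠ e)
    (hs : ∀ e, src (s1 e) = s0 (src e)) (hi : ∀ e, inv (s1 e) = s1 (inv e))
    (hconn : ∀ x y : X0, Relation.ReflTransGen (fun a b => ∃ e, src e = a ∧ src (inv e) = b) x y)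
    (h : ∀ c : X1 → ZMod 3, (∀ e, c (inv e) = - c e) →
      ∃ u : X0 → ZMod 3, ∀ e, c (s1 e) - c e = u (src (inv e)) - u (src e)) :
    {e | s1 e ≠ e}.ncard ≤ 2 * {x | s0 x ≠ x}.ncard := by
  classical
  obtain ⟨f0, hf0⟩ : ∃ f : X0 → ℕ, Function.Injective f :=
    ⟨fun x => (Finite.equivFin X0 x : ℕ), fun x y h => (Finite.equivFin X0).injective (Fin.ext h)⟩
  obtain ⟨f1, hf1⟩ : ∃ f : X1 → ℕ, Function.Injective f :=
    ⟨fun x => (Finite.equivFin X1 x : ℕ), fun x y h => (Finite.equivFin X1).injective (Fin.ext h)⟩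
  have e1 := card_le f0 hf0 f1 hf1 s0 s1 h0 h1 hinv hne hs hi (fun x y => Wk.exists_of x y (hconn x y)) h
  set A := M1 inv f1 s1 with hA
  set B := M0 f0 s0 with hB
  have e2 : {e | s1 e ≠ e}.ncard ≤ 6 * A.ncard := by
    have hsub : {e | s1 e ≠ e} ⊆ A ∪ (fun e => s1 (s1 e)) '' A ∪ s1 '' A ∪ inv '' A
        ∪ (fun e => s1 (s1 (inv e))) '' A ∪ (fun e => s1 (inv e)) '' A := by
      intro e he
      have he' : s1 e ≠ e := he
      rcases cover1 f1 s1 h1 hinv hi e he' with h | h | h | h | h | h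
      · exact Or.inl (Or.inl (Or.inl (Or.inl (Or.inl h))))
      · exact Or.inl (Or.inl (Or.inl (Or.inl (Or.inr ⟨_, h, h1 e⟩))))
      · exact Or.inl (Or.inl (Or.inl (Or.inr ⟨_, h, h1 e⟩)))
      · exact Or.inl (Or.inl (Or.inr ⟨_, h, hinv e⟩))
      · exact Or.inl (Or.inr ⟨_, h, by simp only [hinv]; exact h1 e⟩)
      · exact Or.inr ⟨_, h, by simp only [hinv]; exact h1 e⟩
    have i1 := Set.ncard_le_ncard hsub (Set.toFinite _)
    have j1 := Set.ncard_union_le (A ∪ (fun e => s1 (s1 e)) '' A ∪ s1 '' A ∪ inv '' A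
        ∪ (fun e => s1 (s1 (inv e))) '' A) ((fun e => s1 (inv e)) '' A)
    have j2 := Set.ncard_union_le (A ∪ (fun e => s1 (s1 e)) '' A ∪ s1 '' A ∪ inv '' A)
        ((fun e => s1 (s1 (inv e))) '' A)
    have j3 := Set.ncard_union_le (A ∪ (fun e => s1 (s1 e)) '' A ∪ s1 '' A) (inv '' A)
    have j4 := Set.ncard_union_le (A ∪ (fun e => s1 (s1 e)) '' A) (s1 '' A)
    have j5 := Set.ncard_union_le A ((fun e => s1 (s1 e)) '' A)
    have k1 := Set.ncard_image_le (f := fun e => s1 (s1 e)) (Set.toFinite A)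
    have k2 := Set.ncard_image_le (f := s1) (Set.toFinite A)
    have k3 := Set.ncard_image_le (f := inv) (Set.toFinite A)
    have k4 := Set.ncard_image_le (f := fun e => s1 (s1 (inv e))) (Set.toFinite A)
    have k5 := Set.ncard_image_le (f := fun e => s1 (inv e)) (Set.toFinite A)
    omega
  have e3 : 3 * B.ncard ≤ {x | s0 x ≠ x}.ncard := by
    have hinj : Function.Injective s0 := fun x y hxy => by
      rw [← h0 x, hxy, h0]
    have hinj2 : Function.Injective (fun x => s0 (s0 x)) := hinj.comp hinj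
    have hne0 : ∀ x ∈ B, s0 x ≠ x := by
      rintro x ⟨a, _⟩ hx
      rw [hx] at a
      exact lt_irrefl _ a
    have hsub : B ∪ s0 '' B ∪ (fun x => s0 (s0 x)) '' B ⊆ {x | s0 x ≠ x} := by
      rintro x ((hx | ⟨y, hy, rfl⟩) | ⟨y, hy, rfl⟩)
      · exact hne0 x hx
      · exact fun h => hne0 y hy (hinj h)
      · exact fun h => hne0 y hy (hinj (hinj h))
    have d1 : Disjoint B (s0 '' B) := by
      rw [Set.disjoint_left]
      rintro x ⟨a1, a2⟩ ⟨y, ⟨b1, b2⟩, rfl⟩
      rw [h0] at a2
      omega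
    have d2 : Disjoint (B ∪ s0 '' B) ((fun x => s0 (s0 x)) '' B) := by
      rw [Set.disjoint_left]
      rintro x (⟨a1, a2⟩ | ⟨z, ⟨a1, a2⟩, rfl⟩) ⟨y, ⟨b1, b2⟩, hy⟩
      · subst hy
        simp only [h0] at a1
        omega
      · simp only at hy
        have := hinj hy
        subst this
        rw [h0] at a2
        omega
    have i1 := Set.ncard_le_ncard hsub (Set.toFinite _)
    rw [Set.ncard_union_eq d2 (Set.toFinite _) (Set.toFinite _),
      Set.ncard_union_eq d1 (Set.toFinite _) (Set.toFinite _),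
      Set.ncard_image_of_injective _ hinj, Set.ncard_image_of_injective _ hinj2] at i1
    omega
  rw [Nat.card_coe_set_eq, Nat.card_coe_set_eq] at e1
  omega

end Pool.Agent.Lib.MP_6567fb_al.Lef3
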